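import Mathlib

/-!
# Uniform lattice point counts for Jordan sets

The number of the points `x + h k`, `k` integral, in a bounded set `Y` with null frontier is
`vol Y / h ^ d` up to `ε / h ^ d`, uniformly in `x`, for all small `h`.
-/

set_option autoImplicit false
open MeasureTheory Set Metric Filter Topology

namespace GB.Count

variable {d : ℕ}

/-- the point `x + h k` -/
def pt (h : ℝ) (x : Fin d → ℝ) (k : Fin d → ℤ) : Fin d → ℝ := fun i => x i + h * k i

/-- the tile with corner `x + h k` -/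
def tile (h : ℝ) (x : Fin d → ℝ) (k : Fin d → ℤ) : Set (Fin d → ℝ) :=
  Set.pi univ fun i => Ico (x i + h * k i) (x i + h * k i + h)

lemma mem_tile {h : ℝ} {x y : Fin d → ℝ} {k : Fin d → ℤ} :
    y ∈ tile h x k ↔ ∀ i, x i + h * k i ≤ y i ∧ y i < x i + h * k i + h := by
  simp [tile, Set.mem_pi]

lemma measurableSet_tile (h : ℝ) (x : Fin d → ℝ) (k : Fin d → ℤ) : MeasurableSet (tile h x k) :=
  MeasurableSet.univ_pi fun _ => measurableSet_Ico

lemma volume_tile {h : ℝ} (hh : 0 < h) (x : Fin d → ℝ) (k : Fin d → ℤ) :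
    volume (tile h x k) = ENNReal.ofReal (h ^ d) := by
  rw [tile, volume_pi_pi]
  simp only [Real.volume_Ico, add_sub_cancel_left]
  rw [Finset.prod_const, Finset.card_univ, Fintype.card_fin, ENNReal.ofReal_pow hh.le]

lemma exists_tile {h : ℝ} (hh : 0 < h) (x y : Fin d → ℝ) : ∃ k, y ∈ tile h x k := by
  refine ⟨fun i => ⌊(y i - x i) / h⌋, mem_tile.2 fun i => ?_⟩
  have h1 := Int.floor_le ((y i - x i) / h)
  have h2 := Int.lt_floor_add_one ((y i - x i) / h)
  rw [le_div_iff₀ hh] at h1
  rw [div_lt_iff₀ hh] at h2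
  constructor <;> nlinarith

lemma tile_unique {h : ℝ} (hh : 0 < h) {x y : Fin d → ℝ} {k l : Fin d → ℤ} (hk : y ∈ tile h x k)
    (hl : y ∈ tile h x l) : k = l := by
  funext i
  obtain ⟨a1, a2⟩ := mem_tile.1 hk i
  obtain ⟨b1, b2⟩ := mem_tile.1 hl i
  have h1 : (k i : ℝ) < l i + 1 := by
    by_contra hc
    push Not at hc
    nlinarith
  have h2 : (l i : ℝ) < k i + 1 := by
    by_contra hc
    push Not at hc
    nlinarith
  have h1' : k i < l i + 1 := by exact_mod_cast h1
  have h2' : l i < k i + 1 := by exact_mod_cast h2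
  omega

lemma dist_pt_le {h : ℝ} (hh : 0 < h) {x y : Fin d → ℝ} {k : Fin d → ℤ} (hk : y ∈ tile h x k) :
    dist y (pt h x k) ≤ h := by
  rw [dist_pi_le_iff hh.le]
  intro i
  obtain ⟨a1, a2⟩ := mem_tile.1 hk i
  rw [Real.dist_eq, abs_le]
  simp only [pt]
  constructor <;> linarith

lemma inter_frontier_nonempty {X : Type*} [TopologicalSpace X] {t Y : Set X}
    (ht : IsPreconnected t) {a b : X} (ha : a ∈ t) (hb : b ∈ t) (haY : a ∈ Y) (hbY : b ∉ Y) :
    (t ∩ frontier Y).Nonempty := by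
  by_contra hc
  rw [Set.not_nonempty_iff_eq_empty] at hc
  have hno : ∀ z ∈ t, z ∉ frontier Y := fun z hz hzf => by
    have : z ∈ t ∩ frontier Y := ⟨hz, hzf⟩
    rw [hc] at this
    exact this
  have ha' : a ∈ interior Y := by
    by_contra h
    exact hno a ha ⟨subset_closure haY, h⟩
  have hb' : b ∈ (closure Y)ᶜ := by
    intro h
    exact hno b hb ⟨h, fun hi => hbY (interior_subset hi)⟩
  obtain ⟨z, _, hz1, hz2⟩ := ht (interior Y) (closure Y)ᶜ isOpen_interior
    isClosed_closure.isOpen_compl (by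
      intro z hz
      by_cases h : z ∈ closure Y
      · left
        by_contra hi
        exact hno z hz ⟨h, hi⟩
      · exact Or.inr h) ⟨a, ha, ha'⟩ ⟨b, hb, hb'⟩
  exact hz2 (subset_closure (interior_subset hz1))

lemma mem_cthickening_of {Y : Set (Fin d → ℝ)} {a b : Fin d → ℝ} {h : ℝ} (ha : a ∈ Y) (hb : b ∉ Y)
    (hab : dist a b ≤ h) : a ∈ cthickening h (frontier Y) ∧ b ∈ cthickening h (frontier Y) := by
  have hpre : IsPreconnected (segment ℝ a b) := (convex_segment a b).isPreconnected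
  obtain ⟨z, hz, hzf⟩ := inter_frontier_nonempty hpre (left_mem_segment ℝ a b)
    (right_mem_segment ℝ a b) ha hb
  have hd := dist_add_dist_of_mem_segment hz
  have d1 := dist_nonneg (x := a) (y := z)
  have d2 := dist_nonneg (x := z) (y := b)
  refine ⟨mem_cthickening_of_dist_le a z h _ hzf (by linarith), ?_⟩
  refine mem_cthickening_of_dist_le b z h _ hzf ?_
  rw [dist_comm]
  linarith

/-- the integral points `k` with `x + h k` in `Y` -/
def pts (h : ℝ) (x : Fin d → ℝ) (Y : Set (Fin d → ℝ)) : Set (Fin d → ℤ) := {k | pt h x k ∈ Y}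

lemma finite_pts {h : ℝ} (hh : 0 < h) (x : Fin d → ℝ) {Y : Set (Fin d → ℝ)}
    (hY : Bornology.IsBounded Y) : (pts h x Y).Finite := by
  obtain ⟨R, hR⟩ := hY.subset_closedBall x
  have hsub : pts h x Y ⊆ Set.pi univ fun _ => Icc (-⌈R / h⌉) ⌈R / h⌉ := by
    intro k hk
    have h1 := hR hk
    rw [mem_closedBall] at h1
    have hR0 : 0 ≤ R := dist_nonneg.trans h1
    rw [dist_pi_le_iff hR0] at h1
    rw [Set.mem_pi]
    intro i _
    have h2 := h1 i
    rw [Real.dist_eq] at h2
    simp only [pt, add_sub_cancel_left] at h2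
    rw [abs_mul, abs_of_pos hh] at h2
    have h3 : |(k i : ℝ)| ≤ R / h := by
      rw [le_div_iff₀ hh]
      linarith
    have h4 : |(k i : ℝ)| ≤ (⌈R / h⌉ : ℝ) := h3.trans (Int.le_ceil _)
    rw [abs_le] at h4
    rw [Set.mem_Icc]
    constructor
    · exact_mod_cast h4.1
    · exact_mod_cast h4.2
  exact (Set.Finite.pi' fun _ => Set.finite_Icc _ _).subset (by
    intro k hk
    have := hsub hk
    rw [Set.mem_pi] at this
    exact fun i => this i (mem_univ i))

lemma union_volume {h : ℝ} (hh : 0 < h) (x : Fin d → ℝ) {Y : Set (Fin d → ℝ)}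
    (hY : Bornology.IsBounded Y) :
    volume.real (⋃ k ∈ pts h x Y, tile h x k) = (pts h x Y).ncard * h ^ d := by
  have hfin := finite_pts hh x hY
  rw [measureReal_def, measure_biUnion hfin.countable]
  · simp only [volume_tile hh]
    rw [ENNReal.tsum_const, ENNReal.toReal_mul, ENNReal.toReal_ofReal (by positivity)]
    congr 1
    rw [ENat.card_coe_set_eq]
    rw [← hfin.cast_ncard_eq]
    simp
  · intro k _ l _ hkl
    rw [Function.onFun, Set.disjoint_left]
    intro y hyk hyl
    exact hkl (tile_unique hh hyk hyl)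
  · intro k _
    exact measurableSet_tile h x k

/-- **the main estimate** -/
lemma abs_count_sub_le {h : ℝ} (hh : 0 < h) (x : Fin d → ℝ) {Y : Set (Fin d → ℝ)}
    (hY : Bornology.IsBounded Y) :
    |((pts h x Y).ncard : ℝ) * h ^ d - volume.real Y| ≤
      volume.real (cthickening h (frontier Y)) := by
  rw [← union_volume hh x hY]
  set U := ⋃ k ∈ pts h x Y, tile h x k with hU
  have hfr : Bornology.IsBounded (frontier Y) := hY.closure.subset frontier_subset_closure
  have hct : volume (cthickening h (frontier Y)) ≠ ⊤ :=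
    (hfr.cthickening (δ := h)).measure_lt_top.ne
  have hYfin : volume Y ≠ ⊤ := hY.measure_lt_top.ne
  have hUfin : volume U ≠ ⊤ := by
    have : Bornology.IsBounded U := by
      rw [hU]
      refine (Bornology.isBounded_biUnion (finite_pts hh x hY)).2 fun k _ => ?_
      rw [isBounded_iff_forall_norm_le]
      refine ⟨‖pt h x k‖ + h, fun y hy => ?_⟩
      have h1 := dist_pt_le hh hy
      have h2 : ‖y‖ ≤ ‖y - pt h x k‖ + ‖pt h x k‖ := by
        have := norm_add_le (y - pt h x k) (pt h x k)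
        rwa [sub_add_cancel] at this
      rw [dist_eq_norm] at h1
      linarith
    exact this.measure_lt_top.ne
  have h1 : U ⊆ Y ∪ cthickening h (frontier Y) := by
    intro y hy
    rw [hU, mem_iUnion₂] at hy
    obtain ⟨k, hk, hyk⟩ := hy
    by_cases hyY : y ∈ Y
    · exact Or.inl hyY
    · right
      exact (mem_cthickening_of (a := pt h x k) (b := y) hk hyY
        (by rw [dist_comm]; exact dist_pt_le hh hyk)).2
  have h2 : Y ⊆ U ∪ cthickening h (frontier Y) := by
    intro y hy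
    obtain ⟨k, hyk⟩ := exists_tile hh x y
    by_cases hk : k ∈ pts h x Y
    · left
      rw [hU, mem_iUnion₂]
      exact ⟨k, hk, hyk⟩
    · right
      exact (mem_cthickening_of (a := y) (b := pt h x k) hy hk (dist_pt_le hh hyk)).1
  have e1 : volume.real U ≤ volume.real Y + volume.real (cthickening h (frontier Y)) :=
    (measureReal_mono h1 (measure_union_ne_top hYfin hct)).trans (measureReal_union_le _ _)
  have e2 : volume.real Y ≤ volume.real U + volume.real (cthickening h (frontier Y)) :=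
    (measureReal_mono h2 (measure_union_ne_top hUfin hct)).trans (measureReal_union_le _ _)
  rw [abs_le]
  constructor <;> linarith

/-- **uniform count**, in the form with the mesh `h` -/
theorem exists_mesh {Y : Set (Fin d → ℝ)} (hY : Bornology.IsBounded Y)
    (hfr : volume (frontier Y) = 0) {ε : ℝ} (hε : 0 < ε) :
    ∃ h0 : ℝ, 0 < h0 ∧ ∀ h : ℝ, 0 < h → h < h0 → ∀ x : Fin d → ℝ,
      |((pts h x Y).ncard : ℝ) * h ^ d - volume.real Y| ≤ ε := by
  have hcomp : IsCompact (frontier Y) :=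
    Metric.isCompact_of_isClosed_isBounded isClosed_frontier
      (hY.closure.subset frontier_subset_closure)
  have hlim := tendsto_measure_cthickening_of_isCompact (μ := (volume : Measure (Fin d → ℝ))) hcomp
  rw [hfr] at hlim
  have hev := hlim.eventually (gt_mem_nhds (ENNReal.ofReal_pos.2 hε))
  rw [Metric.eventually_nhds_iff] at hev
  obtain ⟨h0, hh0, hb⟩ := hev
  refine ⟨h0, hh0, fun h hh hlt x => (abs_count_sub_le hh x hY).trans ?_⟩
  have h1 := hb (y := h) (by rw [Real.dist_eq, sub_zero, abs_of_pos hh]; exact hlt)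
  rw [measureReal_def]
  exact (ENNReal.toReal_mono ENNReal.ofReal_ne_top h1.le).trans_eq (ENNReal.toReal_ofReal hε.le)

/-- **uniform count** for the lattice `(4 / M) ℤ ^ d` -/
theorem count_uniform {Y : Set (Fin d → ℝ)} (hY : Bornology.IsBounded Y)
    (hfr : volume (frontier Y) = 0) {ε : ℝ} (hε : 0 < ε) :
    ∃ M0 : ℕ, 0 < M0 ∧ ∀ M : ℕ, M0 ≤ M → ∀ x : Fin d → ℝ,
      |((pts (4 / (M : ℝ)) x Y).ncard : ℝ) - volume.real Y * ((M : ℝ) / 4) ^ d| ≤
        ε * ((M : ℝ) / 4) ^ d := by
  obtain ⟨h0, hh0, hb⟩ := exists_mesh hY hfr hε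
  obtain ⟨M0, hM0⟩ := exists_nat_gt (4 / h0)
  have hM0pos : 0 < M0 := by
    have : (0 : ℝ) < M0 := lt_trans (by positivity) hM0
    exact_mod_cast this
  refine ⟨M0, hM0pos, fun M hM x => ?_⟩
  have hMpos : (0 : ℝ) < M := by
    have : 0 < M := lt_of_lt_of_le hM0pos hM
    exact_mod_cast this
  have h1 : 4 / (M : ℝ) < h0 := by
    rw [div_lt_iff₀ hMpos]
    rw [div_lt_iff₀ hh0] at hM0
    have : (M0 : ℝ) ≤ M := by exact_mod_cast hM
    nlinarith
  have h2 := hb (4 / (M : ℝ)) (by positivity) h1 x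
  have h3 : (0 : ℝ) < ((M : ℝ) / 4) ^ d := by positivity
  have h4 : (4 / (M : ℝ)) ^ d * ((M : ℝ) / 4) ^ d = 1 := by
    rw [← mul_pow]
    have : 4 / (M : ℝ) * ((M : ℝ) / 4) = 1 := by field_simp
    rw [this, one_pow]
  have h5 : ((pts (4 / (M : ℝ)) x Y).ncard : ℝ) - volume.real Y * ((M : ℝ) / 4) ^ d =
      (((pts (4 / (M : ℝ)) x Y).ncard : ℝ) * (4 / (M : ℝ)) ^ d - volume.real Y) *
        ((M : ℝ) / 4) ^ d := by
    rw [sub_mul, mul_assoc, h4, mul_one]
  rw [h5, abs_mul, abs_of_pos h3]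
  exact mul_le_mul_of_nonneg_right h2 h3.le

end GB.Count
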